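import Pool.Agent.H85.Conc

set_option autoImplicit false

namespace Pool.Agent.Results.MP_e8f8b0_gt.ConcCH

open Pool.Agent.H85.CovDefs Pool.Agent.H85.BDefs

universe u

/-- Under CH (or just `b = aleph 1`), every Hurewicz `b`-concentrated set of reals is
productively Hurewicz. -/
theorem result (h : Cardinal.continuum.{0} = Cardinal.aleph 1 ∨ bnum = Cardinal.aleph 1)
    (X : Set (ℕ → Bool)) (hX : Hurewicz X) (hc : Concentrated bnum X)
    (Z : Type u) [TopologicalSpace Z] (hZ : Hurewicz Z) : Hurewicz (X × Z) :=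
  Pool.Agent.H85.Conc.main h hX hc Z hZ

end Pool.Agent.Results.MP_e8f8b0_gt.ConcCH
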